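import Pool.Agent.Helper98.CLTd.Radial

/-! Integrations by parts on the half line. -/

namespace Pool.Agent.Helper70.CLTd

open MeasureTheory Set Filter Topology
open scoped ComplexConjugate ENNReal
open Pool.Agent.Helper98.CLTd

lemma E_integrableOn (h : E) (r : ℝ) : IntegrableOn (fun t => h t) (Ioc 0 r) volume := by
  have h1 : MemLp (fun t => h t) 2 (volume.restrict (Ioc 0 r)) := by
    have := (Lp.memLp h).restrict (Ioc 0 r)
    rwa [Measure.restrict_restrict measurableSet_Ioc,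
      inter_eq_left.2 (Ioc_subset_Ioi_self)] at this
  have : IsFiniteMeasure (volume.restrict (Ioc 0 r)) := by
    refine ⟨?_⟩
    rw [Measure.restrict_apply_univ, Real.volume_Ioc]
    exact ENNReal.ofReal_lt_top
  exact h1.integrable one_le_two

lemma E_sq_integrable (h : E) : IntegrableOn (fun t => ‖h t‖ ^ 2) (Ioi 0) volume :=
  (Lp.memLp h).norm.integrable_sq

/-- The constant in the bound for primitives. -/
noncomputable def KK (h : E) : ℝ := ((∫ t in Ioi (0 : ℝ), ‖h t‖ ^ 2) + 1) / 2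

lemma KK_nonneg (h : E) : 0 ≤ KK h := by
  have : 0 ≤ ∫ t in Ioi (0 : ℝ), ‖h t‖ ^ 2 := integral_nonneg fun t => by positivity
  unfold KK; linarith

lemma prim_norm_le (h : E) {r : ℝ} (hr : 0 < r) :
    ∫ t in Ioc 0 r, ‖h t‖ ≤ KK h * √r := by
  have hs : 0 < √r := Real.sqrt_pos.2 hr
  have hsq : IntegrableOn (fun t => ‖h t‖ ^ 2) (Ioc 0 r) volume :=
    (E_sq_integrable h).mono_set Ioc_subset_Ioi_self
  have hc : IntegrableOn (fun _ : ℝ => (1 : ℝ) / √r) (Ioc 0 r) volume :=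
    integrableOn_const (by simp) 
  have h1 : ∫ t in Ioc 0 r, ‖h t‖ ≤ ∫ t in Ioc 0 r, (√r * ‖h t‖ ^ 2 + 1 / √r) / 2 := by
    apply integral_mono_of_nonneg
    · filter_upwards with t using norm_nonneg _
    · exact ((hsq.const_mul _).add hc).div_const 2
    · filter_upwards with t
      have : 0 ≤ (√r * ‖h t‖ - 1) ^ 2 / √r := by positivity
      have e : (√r * ‖h t‖ - 1) ^ 2 / √r = √r * ‖h t‖ ^ 2 + 1 / √r - 2 * ‖h t‖ := by
        field_simp
        ring
      rw [e] at this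
      show ‖h t‖ ≤ (√r * ‖h t‖ ^ 2 + 1 / √r) / 2
      linarith
  have h2 : ∫ t in Ioc 0 r, (√r * ‖h t‖ ^ 2 + 1 / √r) / 2
      = (√r * (∫ t in Ioc 0 r, ‖h t‖ ^ 2) + √r) / 2 := by
    rw [integral_div, integral_add (hsq.const_mul _) hc, integral_const_mul]
    congr 2
    rw [setIntegral_const]
    simp only [smul_eq_mul, Measure.real, Real.volume_Ioc, sub_zero]
    rw [ENNReal.toReal_ofReal hr.le]
    field_simp
    rw [Real.sq_sqrt hr.le]
  have h3 : ∫ t in Ioc 0 r, ‖h t‖ ^ 2 ≤ ∫ t in Ioi 0, ‖h t‖ ^ 2 :=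
    setIntegral_mono_set (E_sq_integrable h) (by filter_upwards with t using by positivity)
      (LE.le.eventuallyLE Ioc_subset_Ioi_self)
  rw [h2] at h1
  refine h1.trans ?_
  unfold KK
  nlinarith

lemma prim_le (h : E) {r : ℝ} (hr : 0 < r) : ‖∫ t in Ioc 0 r, h t‖ ≤ KK h * √r :=
  (norm_integral_le_integral_norm _).trans (prim_norm_le h hr)

/-- Integration by parts against a primitive (Fubini). -/
lemma ibp (g h : E) (hg : ∀ᵐ r ∂μ₀, g r = ∫ t in Ioc 0 r, h t) (φ φ' : ℝ → ℂ)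
    (hm : AEStronglyMeasurable φ' μ₀) (hint : Integrable (fun r => √r * ‖φ' r‖) μ₀)
    (hφ : ∀ t, 0 < t → ∫ r in Ioi t, φ' r = -φ t) :
    ∫ r in Ioi (0 : ℝ), g r * φ' r = -∫ r in Ioi (0 : ℝ), h r * φ r := by
  set S : Set (ℝ × ℝ) := {p | p.2 ≤ p.1} with hS
  have hSm : MeasurableSet S := measurableSet_le measurable_snd measurable_fst
  set G : ℝ × ℝ → ℂ := S.indicator (fun p => h p.2 * φ' p.1) with hG
  have hGm : AEStronglyMeasurable G (μ₀.prod μ₀) := by
    refine AEStronglyMeasurable.indicator ?_ hSm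
    exact ((Lp.memLp h).1.comp_snd).mul (hm.comp_fst)
  have hGr : ∀ r t, G (r, t) = (Iic r).indicator (fun t => h t * φ' r) t := by
    intro r t
    by_cases hh : t ≤ r
    · rw [hG, indicator_of_mem (show (r, t) ∈ S from hh), indicator_of_mem (show t ∈ Iic r from hh)]
    · rw [hG, indicator_of_notMem (show (r, t) ∉ S from hh),
        indicator_of_notMem (show t ∉ Iic r from hh)]
  have hGt : ∀ r t, G (r, t) = (Ici t).indicator (fun r => h t * φ' r) r := by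
    intro r t
    by_cases hh : t ≤ r
    · rw [hG, indicator_of_mem (show (r, t) ∈ S from hh), indicator_of_mem (show r ∈ Ici t from hh)]
    · rw [hG, indicator_of_notMem (show (r, t) ∉ S from hh),
        indicator_of_notMem (show r ∉ Ici t from hh)]
  have hIoc : ∀ r : ℝ, Ioi (0 : ℝ) ∩ Iic r = Ioc 0 r := fun r => Ioi_inter_Iic
  have hres : ∀ r : ℝ, μ₀.restrict (Iic r) = volume.restrict (Ioc 0 r) := by
    intro r
    rw [Measure.restrict_restrict measurableSet_Iic, inter_comm, hIoc]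
  have hGint : Integrable G (μ₀.prod μ₀) := by
    rw [integrable_prod_iff hGm]
    constructor
    · filter_upwards with r
      have : (fun t => G (r, t)) = (Iic r).indicator (fun t => h t * φ' r) := by
        ext t; exact hGr r t
      rw [this, integrable_indicator_iff measurableSet_Iic, IntegrableOn, hres]
      exact (E_integrableOn h r).mul_const _
    · refine Integrable.mono' (hint.const_mul (KK h)) hGm.norm.integral_prod_right' ?_
      filter_upwards [ae_restrict_mem measurableSet_Ioi] with r hr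
      have : (fun t => ‖G (r, t)‖) = (Iic r).indicator (fun t => ‖h t‖ * ‖φ' r‖) := by
        ext t; rw [hGr r t, norm_indicator_eq_indicator_norm]; simp only [norm_mul]
      rw [this, integral_indicator measurableSet_Iic, hres, integral_mul_const, norm_mul,
        norm_norm, Real.norm_of_nonneg (integral_nonneg fun t => norm_nonneg _), ← mul_assoc]
      exact mul_le_mul_of_nonneg_right (prim_norm_le h hr) (norm_nonneg _)
  have hsw : ∫ r in Ioi (0 : ℝ), ∫ t in Ioi (0 : ℝ), G (r, t)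
      = ∫ t in Ioi (0 : ℝ), ∫ r in Ioi (0 : ℝ), G (r, t) :=
    integral_integral_swap (f := fun r t => G (r, t)) hGint
  have hL : ∫ r in Ioi (0 : ℝ), ∫ t in Ioi (0 : ℝ), G (r, t)
      = ∫ r in Ioi (0 : ℝ), g r * φ' r := by
    apply integral_congr_ae
    filter_upwards [hg] with r hr
    have : (fun t => G (r, t)) = (Iic r).indicator (fun t => h t * φ' r) := by
      ext t; exact hGr r t
    rw [this, integral_indicator measurableSet_Iic, hres, integral_mul_const, hr]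
  have hR : ∫ t in Ioi (0 : ℝ), ∫ r in Ioi (0 : ℝ), G (r, t)
      = ∫ t in Ioi (0 : ℝ), -(h t * φ t) := by
    apply integral_congr_ae
    filter_upwards [ae_restrict_mem measurableSet_Ioi] with t ht
    have : (fun r => G (r, t)) = (Ici t).indicator (fun r => h t * φ' r) := by
      ext r; exact hGt r t
    rw [this, integral_indicator measurableSet_Ici,
      Measure.restrict_restrict measurableSet_Ici, inter_comm, 
      inter_eq_right.2 (Ici_subset_Ioi.2 ht), integral_const_mul,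
      integral_Ici_eq_integral_Ioi, hφ t ht]
    ring
  rw [← hL, hsw, hR, integral_neg]

/-- Basic dominating function. -/
noncomputable def DD (r : ℝ) : ℝ := (1 + r ^ 2)⁻¹

lemma DD_pos (r : ℝ) : 0 < DD r := by unfold DD; positivity

lemma DD_le_one (r : ℝ) : DD r ≤ 1 := by
  unfold DD; exact inv_le_one_of_one_le₀ (by nlinarith [sq_nonneg r])

lemma DD_int : Integrable DD μ₀ := integrable_inv_one_add_sq.integrableOn

lemma DD_tendsto : Tendsto DD atTop (𝓝 0) := by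
  unfold DD
  apply Tendsto.inv_tendsto_atTop
  exact tendsto_atTop_add_const_left _ _ (tendsto_pow_atTop two_ne_zero)

/-- The bounds of an admissible function in a convenient form. -/
lemma adm_bounds {χ χ' χ'' : ℝ → ℂ} (hχ : Adm χ χ' χ'') : ∃ C : ℝ, 0 ≤ C ∧ ∀ r, 0 < r →
    ‖χ r‖ ≤ C * DD r ∧ ‖χ' r‖ ≤ C * DD r ∧ √r * ‖χ'' r‖ ≤ C * DD r ∧ ‖χ r‖ ≤ C * (r * √r) ∧
      ‖χ' r‖ ≤ C * √r ∧ √r * (‖χ r‖ / r ^ 2) ≤ C * DD r ∧ √r * ‖χ r‖ ≤ C * DD r := by
  obtain ⟨C, hC⟩ := hχ.bound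
  have hC0 : 0 ≤ C := by
    have h1 := (hC 1 one_pos).1
    have h2 : 0 ≤ ‖χ 1‖ := norm_nonneg _
    norm_num at h1
    linarith
  refine ⟨C, hC0, fun r hr => ?_⟩
  obtain ⟨h0, h1, h2⟩ := hC r hr
  have hs : 0 < √r := Real.sqrt_pos.2 hr
  have hss : √r * √r = r := Real.mul_self_sqrt hr.le
  have e1 : r ^ (3 / 2 : ℝ) = r * √r := by
    rw [Real.sqrt_eq_rpow, ← Real.rpow_one_add' hr.le (by norm_num)]; norm_num
  have e2 : r ^ (1 / 2 : ℝ) = √r := by rw [Real.sqrt_eq_rpow]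
  have e3 : r ^ (-(1 / 2) : ℝ) = (√r)⁻¹ := by rw [Real.rpow_neg hr.le, Real.sqrt_eq_rpow]
  rw [e1] at h0
  rw [e2] at h1
  rw [e3] at h2
  have hsle : √r ≤ 1 + r := by nlinarith [sq_nonneg (√r - 1)]
  have hp : 0 < (1 + r) ^ 4 := by positivity
  have hq1 : 1 ≤ (1 + r) ^ 4 := one_le_pow₀ (by linarith)
  have hDD : ∀ X : ℝ, X ≤ (1 + r) ^ 2 → 0 ≤ X → X / (1 + r) ^ 4 ≤ DD r := by
    intro X hX hX0
    have : DD r = (1 + r ^ 2)⁻¹ := rfl
    rw [this, div_le_iff₀ hp, inv_mul_eq_div, le_div_iff₀ (by positivity)]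
    have h5 : (1 + r ^ 2) ≤ (1 + r) ^ 2 := by nlinarith
    calc X * (1 + r ^ 2) ≤ (1 + r) ^ 2 * (1 + r) ^ 2 := by gcongr
      _ = (1 + r) ^ 4 := by ring
  refine ⟨?_, ?_, ?_, ?_, ?_, ?_, ?_⟩
  · refine h0.trans ?_
    rw [mul_div_assoc]
    exact mul_le_mul_of_nonneg_left (hDD _ (by nlinarith) (by positivity)) hC0
  · refine h1.trans ?_
    rw [mul_div_assoc]
    exact mul_le_mul_of_nonneg_left (hDD _ (by nlinarith) (by positivity)) hC0
  · have : √r * ‖χ'' r‖ ≤ √r * (C * (√r)⁻¹ / (1 + r) ^ 4) := by gcongr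
    refine this.trans ?_
    have e : √r * (C * (√r)⁻¹ / (1 + r) ^ 4) = C * (1 / (1 + r) ^ 4) := by field_simp
    rw [e]
    exact mul_le_mul_of_nonneg_left (hDD _ (by nlinarith) (by positivity)) hC0
  · refine h0.trans ?_
    rw [div_le_iff₀ hp]
    exact le_mul_of_one_le_right (by positivity) hq1
  · refine h1.trans ?_
    rw [div_le_iff₀ hp]
    exact le_mul_of_one_le_right (by positivity) hq1
  · have : √r * (‖χ r‖ / r ^ 2) ≤ √r * (C * (r * √r) / (1 + r) ^ 4 / r ^ 2) := by gcongr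
    refine this.trans ?_
    have e : √r * (C * (r * √r) / (1 + r) ^ 4 / r ^ 2) = C * (1 / (1 + r) ^ 4) := by
      field_simp
      nlinarith
    rw [e]
    exact mul_le_mul_of_nonneg_left (hDD _ (by nlinarith) (by positivity)) hC0
  · have : √r * ‖χ r‖ ≤ √r * (C * (r * √r) / (1 + r) ^ 4) := by gcongr
    refine this.trans ?_
    have e : √r * (C * (r * √r) / (1 + r) ^ 4) = C * (r ^ 2 / (1 + r) ^ 4) := by
      field_simp
      nlinarith
    rw [e]
    exact mul_le_mul_of_nonneg_left (hDD _ (by nlinarith) (by positivity)) hC0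

lemma adm_cont {χ χ' χ'' : ℝ → ℂ} (hχ : Adm χ χ' χ'') : ContinuousOn χ (Ioi 0) :=
  fun r hr => (hχ.d1 r hr).continuousAt.continuousWithinAt

lemma adm_cont' {χ χ' χ'' : ℝ → ℂ} (hχ : Adm χ χ' χ'') : ContinuousOn χ' (Ioi 0) :=
  fun r hr => (hχ.d2 r hr).continuousAt.continuousWithinAt

lemma memLp_of_DD {φ : ℝ → ℂ} (hm : AEStronglyMeasurable φ μ₀) {C : ℝ}
    (h : ∀ r, 0 < r → ‖φ r‖ ≤ C * DD r) : MemLp φ 2 μ₀ := by
  rw [memLp_two_iff_integrable_sq_norm hm]
  refine Integrable.mono' (DD_int.const_mul (C ^ 2)) (hm.norm.pow 2) ?_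
  filter_upwards [ae_restrict_mem measurableSet_Ioi] with r hr
  rw [Real.norm_of_nonneg (by positivity)]
  have h1 := h r hr
  have hD := DD_pos r
  have hD1 := DD_le_one r
  calc ‖φ r‖ ^ 2 ≤ (C * DD r) ^ 2 := by gcongr
    _ = C ^ 2 * (DD r * DD r) := by ring
    _ ≤ C ^ 2 * (DD r * 1) := by gcongr
    _ = C ^ 2 * DD r := by ring

lemma integrable_of_DD {φ : ℝ → ℂ} (hm : AEStronglyMeasurable φ μ₀) {C : ℝ}
    (h : ∀ r, 0 < r → ‖φ r‖ ≤ C * DD r) : Integrable φ μ₀ := by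
  refine Integrable.mono' (DD_int.const_mul C) hm ?_
  filter_upwards [ae_restrict_mem measurableSet_Ioi] with r hr using h r hr

lemma tendsto_atTop_of_DD {φ : ℝ → ℂ} {C : ℝ}
    (h : ∀ r, 0 < r → ‖φ r‖ ≤ C * DD r) : Tendsto φ atTop (𝓝 0) := by
  refine squeeze_zero_norm' (a := fun r => C * DD r) ?_ ?_
  · filter_upwards [eventually_gt_atTop 0] with r hr using h r hr
  · simpa using DD_tendsto.const_mul C

lemma toLp_Ioc {φ : ℝ → ℂ} (hφ : MemLp φ 2 μ₀) (r : ℝ) :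
    ∫ t in Ioc 0 r, (hφ.toLp φ) t = ∫ t in Ioc 0 r, φ t := by
  apply setIntegral_congr_ae measurableSet_Ioc
  have := hφ.coeFn_toLp
  rw [Filter.EventuallyEq, ae_restrict_iff' measurableSet_Ioi] at this
  filter_upwards [this] with t ht h2 using ht h2.1

/-- `χ` is the primitive of `χ'`. -/
lemma adm_prim {χ χ' χ'' : ℝ → ℂ} (hχ : Adm χ χ' χ'') {r : ℝ} (hr : 0 < r) :
    χ r = ∫ t in Ioc 0 r, χ' t := by
  obtain ⟨C, hC0, hC⟩ := adm_bounds hχ
  have h1 : Tendsto χ (𝓝[>] 0) (𝓝 0) := by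
    refine squeeze_zero_norm' (a := fun r => C * (r * √r)) ?_ ?_
    · filter_upwards [self_mem_nhdsWithin] with r hr using (hC r hr).2.2.2.1
    · have : Tendsto (fun r : ℝ => C * (r * √r)) (𝓝 0) (𝓝 (C * (0 * √0))) :=
        (by fun_prop : Continuous fun r : ℝ => C * (r * √r)).tendsto 0
      simp only [Real.sqrt_zero, mul_zero] at this
      exact this.mono_left nhdsWithin_le_nhds
  have h2 : Tendsto χ (𝓝[<] r) (𝓝 (χ r)) :=
    (hχ.d1 r hr).continuousAt.tendsto.mono_left nhdsWithin_le_nhds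
  have hint : IntegrableOn χ' (Ioi 0) :=
    integrable_of_DD ((adm_cont' hχ).aestronglyMeasurable measurableSet_Ioi)
      (fun r hr => (hC r hr).2.1)
  have h3 := intervalIntegral.integral_eq_sub_of_hasDerivAt_of_tendsto hr
    (fun x hx => hχ.d1 x hx.1)
    ((intervalIntegrable_iff_integrableOn_Ioc_of_le hr.le).2 (hint.mono_set Ioc_subset_Ioi_self))
    h1 h2
  rw [intervalIntegral.integral_of_le hr.le, sub_zero] at h3
  exact h3.symm

lemma adm_tail {χ χ' χ'' : ℝ → ℂ} (hχ : Adm χ χ' χ'') (t : ℝ) (ht : 0 < t) :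
    ∫ r in Ioi t, χ'' r = -χ' t := by
  obtain ⟨C, hC0, hC⟩ := adm_bounds hχ
  have hint : IntegrableOn χ'' (Ioi t) := by
    refine Integrable.mono' ((DD_int.mono_measure (Measure.restrict_mono
      (Ioi_subset_Ioi ht.le) le_rfl)).const_mul (C / √t))
      ((hχ.cont.mono (Ioi_subset_Ioi ht.le)).aestronglyMeasurable measurableSet_Ioi) ?_
    filter_upwards [ae_restrict_mem measurableSet_Ioi] with r hr
    have hr' : t < r := hr
    have hst : 0 < √t := Real.sqrt_pos.2 ht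
    have h1 := (hC r (ht.trans hr')).2.2.1
    have h2 : √t * ‖χ'' r‖ ≤ √r * ‖χ'' r‖ := by
      gcongr
    rw [div_mul_eq_mul_div, le_div_iff₀ hst]
    linarith
  have := integral_Ioi_of_hasDerivAt_of_tendsto' (f := χ') (f' := χ'') (a := t) (m := 0)
    (fun x hx => hχ.d2 x (lt_of_lt_of_le ht hx)) hint
    (tendsto_atTop_of_DD fun r hr => (hC r hr).2.1)
  rw [this, zero_sub]

lemma adm_ibp {χ χ' χ'' : ℝ → ℂ} (hχ : Adm χ χ' χ'') (g h : E)
    (hg : ∀ᵐ r ∂μ₀, g r = ∫ t in Ioc 0 r, h t) :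
    ∫ r in Ioi (0 : ℝ), g r * χ'' r = -∫ r in Ioi (0 : ℝ), h r * χ' r := by
  obtain ⟨C, hC0, hC⟩ := adm_bounds hχ
  have hm : AEStronglyMeasurable χ'' μ₀ := hχ.cont.aestronglyMeasurable measurableSet_Ioi
  refine ibp g h hg χ' χ'' hm ?_ (adm_tail hχ)
  refine Integrable.mono' (DD_int.const_mul C)
    ((Real.continuous_sqrt.aestronglyMeasurable).mul hm.norm) ?_
  filter_upwards [ae_restrict_mem measurableSet_Ioi] with r hr
  rw [Real.norm_of_nonneg (by positivity)]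
  exact (hC r hr).2.2.1

lemma prim_ae_le (g h : E) (hg : ∀ᵐ r ∂μ₀, g r = ∫ t in Ioc 0 r, h t) :
    ∀ᵐ r ∂μ₀, ‖g r‖ ≤ KK h * √r := by
  filter_upwards [hg, ae_restrict_mem measurableSet_Ioi] with r h1 h2
  rw [h1]; exact prim_le h h2

lemma adm_int2 {χ χ' χ'' : ℝ → ℂ} (hχ : Adm χ χ' χ'') (g h : E)
    (hg : ∀ᵐ r ∂μ₀, g r = ∫ t in Ioc 0 r, h t) :
    Integrable (fun r => g r * χ'' r) μ₀ := by
  obtain ⟨C, hC0, hC⟩ := adm_bounds hχ
  have hm : AEStronglyMeasurable χ'' μ₀ := hχ.cont.aestronglyMeasurable measurableSet_Ioi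
  refine Integrable.mono' (DD_int.const_mul (KK h * C)) ((Lp.memLp g).1.mul hm) ?_
  filter_upwards [prim_ae_le g h hg, ae_restrict_mem measurableSet_Ioi] with r h1 h2
  have h3 := (hC r h2).2.2.1
  have := KK_nonneg h
  rw [norm_mul]
  calc ‖g r‖ * ‖χ'' r‖ ≤ (KK h * √r) * ‖χ'' r‖ := by gcongr
    _ = KK h * (√r * ‖χ'' r‖) := by ring
    _ ≤ KK h * (C * DD r) := by gcongr
    _ = KK h * C * DD r := by ring

/-- (R4a) -/
theorem weak_exotic (Q : ℝ → ℝ) (hQm : Measurable Q)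
    (hQ0 : ∀ r, 0 < r → 0 ≤ Q r) (C : ℝ) (hQ : ∀ r, 0 < r → Q r ≤ C / r ^ 2) (s : ℂ)
    (g h F : E) (hgh : InForm 0 g h)
    (heq : ∀ η η' : E, InForm 0 η η' →
          (∫ r in Ioi (0 : ℝ), h r * η' r) + (∫ r in Ioi (0 : ℝ), ((Q r : ℂ) + s ^ 2) * g r * η r)
            = ∫ r in Ioi (0 : ℝ), F r * η r)
    (χ χ' χ'' : ℝ → ℂ) (hχ : Adm χ χ' χ'') :
    ∫ r in Ioi (0 : ℝ), g r * (-χ'' r + ((Q r : ℂ) + s ^ 2) * χ r)
      = ∫ r in Ioi (0 : ℝ), F r * χ r := by
  obtain ⟨K, hK0, hK⟩ := adm_bounds hχ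
  have hm0 : AEStronglyMeasurable χ μ₀ := (adm_cont hχ).aestronglyMeasurable measurableSet_Ioi
  have hm1 : AEStronglyMeasurable χ' μ₀ := (adm_cont' hχ).aestronglyMeasurable measurableSet_Ioi
  have hm2 : AEStronglyMeasurable χ'' μ₀ := hχ.cont.aestronglyMeasurable measurableSet_Ioi
  have hL0 : MemLp χ 2 μ₀ := memLp_of_DD hm0 fun r hr => (hK r hr).1
  have hL1 : MemLp χ' 2 μ₀ := memLp_of_DD hm1 fun r hr => (hK r hr).2.1
  have hform : InForm 0 (hL0.toLp χ) (hL1.toLp χ') := by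
    constructor
    · filter_upwards [hL0.coeFn_toLp, ae_restrict_mem measurableSet_Ioi] with r h1 h2
      rw [h1, toLp_Ioc hL1, ← adm_prim hχ h2]
    · filter_upwards [ae_restrict_mem measurableSet_Ioi] with r h2 h3
      exact absurd h3 (not_le.2 h2)
  have key := heq _ _ hform
  have e1 : ∫ r in Ioi (0 : ℝ), h r * (hL1.toLp χ') r = ∫ r in Ioi (0 : ℝ), h r * χ' r := by
    apply integral_congr_ae
    filter_upwards [hL1.coeFn_toLp] with r h1
    rw [h1]
  have e2 : ∫ r in Ioi (0 : ℝ), ((Q r : ℂ) + s ^ 2) * g r * (hL0.toLp χ) r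
      = ∫ r in Ioi (0 : ℝ), ((Q r : ℂ) + s ^ 2) * g r * χ r := by
    apply integral_congr_ae
    filter_upwards [hL0.coeFn_toLp] with r h1
    rw [h1]
  have e3 : ∫ r in Ioi (0 : ℝ), F r * (hL0.toLp χ) r = ∫ r in Ioi (0 : ℝ), F r * χ r := by
    apply integral_congr_ae
    filter_upwards [hL0.coeFn_toLp] with r h1
    rw [h1]
  rw [e1, e2, e3] at key
  have hi2 : Integrable (fun r => g r * χ'' r) μ₀ := adm_int2 hχ g h hgh.1
  have hi0 : Integrable (fun r => ((Q r : ℂ) + s ^ 2) * g r * χ r) μ₀ := by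
    have hQm' : AEStronglyMeasurable (fun r => (Q r : ℂ) + s ^ 2) μ₀ :=
      ((Complex.measurable_ofReal.comp hQm).add_const _).aestronglyMeasurable
    refine Integrable.mono' (DD_int.const_mul (KK h * (|C| * K + ‖s‖ ^ 2 * K)))
      ((hQm'.mul (Lp.memLp g).1).mul hm0) ?_
    filter_upwards [prim_ae_le g h hgh.1, ae_restrict_mem measurableSet_Ioi] with r h1 h2
    have h2' : (0 : ℝ) < r := h2
    have h3 := (hK r h2).2.2.2.2.2.1
    have h4 := (hK r h2).2.2.2.2.2.2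
    have := KK_nonneg h
    have hQr : ‖(Q r : ℂ) + s ^ 2‖ ≤ |C| / r ^ 2 + ‖s‖ ^ 2 := by
      refine (norm_add_le _ _).trans ?_
      rw [Complex.norm_real, Real.norm_of_nonneg (hQ0 r h2), norm_pow]
      have h5 : C / r ^ 2 ≤ |C| / r ^ 2 := by
        gcongr
        exact le_abs_self C
      linarith [hQ r h2]
    rw [norm_mul, norm_mul]
    calc ‖(Q r : ℂ) + s ^ 2‖ * ‖g r‖ * ‖χ r‖
        ≤ (|C| / r ^ 2 + ‖s‖ ^ 2) * (KK h * √r) * ‖χ r‖ := by gcongr
      _ = KK h * (|C| * (√r * (‖χ r‖ / r ^ 2)) + ‖s‖ ^ 2 * (√r * ‖χ r‖)) := by ring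
      _ ≤ KK h * (|C| * (K * DD r) + ‖s‖ ^ 2 * (K * DD r)) := by gcongr
      _ = KK h * (|C| * K + ‖s‖ ^ 2 * K) * DD r := by ring
  have e4 : ∫ r in Ioi (0 : ℝ), g r * (-χ'' r + ((Q r : ℂ) + s ^ 2) * χ r)
      = ∫ r in Ioi (0 : ℝ), (((Q r : ℂ) + s ^ 2) * g r * χ r - g r * χ'' r) := by
    congr 1
    ext r
    ring
  rw [e4, integral_sub hi0 hi2, adm_ibp hχ g h hgh.1, sub_neg_eq_add, ← key]
  ring

/-- The decaying exponential. -/
noncomputable def ex (s : ℂ) (r : ℝ) : ℂ := Complex.exp (-s * (r - 1))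

lemma ex_one (s : ℂ) : ex s 1 = 1 := by simp [ex]

lemma ex_deriv (s : ℂ) (r : ℝ) : HasDerivAt (ex s) (-s * ex s r) r := by
  have h1 : HasDerivAt (fun r : ℝ => ((r : ℂ) - 1)) 1 r := by
    simpa using (Complex.ofRealCLM.hasDerivAt (x := r)).sub_const 1
  have h2 : HasDerivAt (fun r : ℝ => -s * ((r : ℂ) - 1)) (-s) r := by
    simpa using h1.const_mul (-s)
  have h3 := h2.cexp
  unfold ex
  rw [mul_comm] at h3
  exact h3

lemma ex_cont (s : ℂ) : Continuous (ex s) :=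
  continuous_iff_continuousAt.2 fun r => (ex_deriv s r).continuousAt

lemma ex_bounds (s : ℂ) (hs : 0 < s.re) : ∃ M : ℝ, 0 ≤ M ∧ ∀ r, 0 < r →
    ‖ex s r‖ ≤ M * DD r ∧ √r * ‖ex s r‖ ≤ M * DD r := by
  set a := s.re with ha
  refine ⟨6 * Real.exp (2 * a) / a ^ 3, by positivity, fun r hr => ?_⟩
  have hn : ‖ex s r‖ = Real.exp (-(a * (r - 1))) := by
    rw [ex, Complex.norm_exp]
    congr 1
    simp [ha]
  have h1 : (a * (1 + r)) ^ 3 / 6 ≤ Real.exp (a * (1 + r)) := by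
    have := Real.pow_div_factorial_le_exp (a * (1 + r)) (by positivity) 3
    norm_num [Nat.factorial] at this
    exact this
  have h2 : (1 + r) ^ 3 * ‖ex s r‖ ≤ 6 * Real.exp (2 * a) / a ^ 3 := by
    have e1 : Real.exp (-(a * (r - 1))) = Real.exp (2 * a) / Real.exp (a * (1 + r)) := by
      rw [← Real.exp_sub]; congr 1; ring
    rw [hn, e1, le_div_iff₀ (by positivity), mul_div_assoc', div_mul_eq_mul_div,
      div_le_iff₀ (Real.exp_pos _)]
    have h3 : 0 < Real.exp (2 * a) := Real.exp_pos _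
    nlinarith [h1]
  have hs1 : √r ≤ 1 + r := by
    have := Real.mul_self_sqrt hr.le
    nlinarith [sq_nonneg (√r - 1)]
  have hD : DD r = (1 + r ^ 2)⁻¹ := rfl
  rw [hD, ← div_eq_mul_inv]
  have hx : 0 ≤ ‖ex s r‖ := norm_nonneg _
  have h4 : (1 + r ^ 2) ≤ (1 + r) ^ 2 := by nlinarith
  have h5 : (1 + r) ^ 2 ≤ (1 + r) ^ 3 := pow_le_pow_right₀ (by linarith) (by norm_num)
  constructor
  · rw [le_div_iff₀ (by positivity)]
    refine le_trans ?_ h2
    rw [mul_comm]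
    exact mul_le_mul_of_nonneg_right (h4.trans h5) hx
  · rw [le_div_iff₀ (by positivity)]
    refine le_trans ?_ h2
    calc √r * ‖ex s r‖ * (1 + r ^ 2) = (√r * (1 + r ^ 2)) * ‖ex s r‖ := by ring
      _ ≤ ((1 + r) * (1 + r) ^ 2) * ‖ex s r‖ := by gcongr
      _ = (1 + r) ^ 3 * ‖ex s r‖ := by ring

lemma ex_tail (s : ℂ) (hs : 0 < s.re) (t : ℝ) (ht : 0 < t) :
    ∫ r in Ioi t, -s * ex s r = -ex s t := by
  obtain ⟨M, hM0, hM⟩ := ex_bounds s hs
  have hint : IntegrableOn (fun r => -s * ex s r) (Ioi t) := by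
    refine Integrable.const_mul ?_ _
    refine Integrable.mono' ((DD_int.mono_measure (Measure.restrict_mono
      (Ioi_subset_Ioi ht.le) le_rfl)).const_mul M) (ex_cont s).aestronglyMeasurable ?_
    filter_upwards [ae_restrict_mem measurableSet_Ioi] with r hr
    exact (hM r (ht.trans hr)).1
  have := integral_Ioi_of_hasDerivAt_of_tendsto' (f := ex s) (f' := fun r => -s * ex s r)
    (a := t) (m := 0) (fun x _ => ex_deriv s x) hint
    (tendsto_atTop_of_DD fun r hr => (hM r hr).1)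
  rw [this, zero_sub]

lemma ex_ibp (s : ℂ) (hs : 0 < s.re) (g h : E)
    (hg : ∀ᵐ r ∂μ₀, g r = ∫ t in Ioc 0 r, h t) :
    s * ∫ r in Ioi (0 : ℝ), g r * ex s r = ∫ r in Ioi (0 : ℝ), h r * ex s r := by
  obtain ⟨M, hM0, hM⟩ := ex_bounds s hs
  have hm : AEStronglyMeasurable (fun r => -s * ex s r) μ₀ :=
    ((ex_cont s).const_smul (-s)).aestronglyMeasurable
  have h1 := ibp g h hg (ex s) (fun r => -s * ex s r) hm ?_ (ex_tail s hs)
  · have e : ∫ r in Ioi (0 : ℝ), g r * (-s * ex s r)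
        = -(s * ∫ r in Ioi (0 : ℝ), g r * ex s r) := by
      rw [← integral_const_mul, ← integral_neg]
      congr 1
      ext r; ring
    rw [e, neg_inj] at h1
    exact h1
  · refine Integrable.mono' (DD_int.const_mul (‖s‖ * M))
      ((Real.continuous_sqrt.aestronglyMeasurable).mul hm.norm) ?_
    filter_upwards [ae_restrict_mem measurableSet_Ioi] with r hr
    rw [Real.norm_of_nonneg (by positivity), norm_mul, norm_neg]
    have := (hM r hr).2
    calc √r * (‖s‖ * ‖ex s r‖) = ‖s‖ * (√r * ‖ex s r‖) := by ring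
      _ ≤ ‖s‖ * (M * DD r) := by gcongr
      _ = ‖s‖ * M * DD r := by ring

lemma outer_int (s : ℂ) (hs : 0 < s.re) {χ χ' χ'' : ℝ → ℂ} (hχ : Adm χ χ' χ'') :
    IntegrableOn (fun r => ex s r * (-χ'' r + s ^ 2 * χ r)) (Ioi 1) ∧
    ∫ r in Ioi (1 : ℝ), ex s r * (-χ'' r + s ^ 2 * χ r) = χ' 1 + s * χ 1 := by
  obtain ⟨M, hM0, hM⟩ := ex_bounds s hs
  obtain ⟨K, hK0, hK⟩ := adm_bounds hχ
  have hsub : Ioi (1 : ℝ) ⊆ Ioi 0 := Ioi_subset_Ioi zero_le_one
  have hint : IntegrableOn (fun r => ex s r * (-χ'' r + s ^ 2 * χ r)) (Ioi 1) := by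
    refine Integrable.mono' ((DD_int.mono_measure (Measure.restrict_mono hsub le_rfl)).const_mul
      (M * (K + ‖s‖ ^ 2 * K))) ?_ ?_
    · refine ContinuousOn.aestronglyMeasurable ?_ measurableSet_Ioi
      exact (ex_cont s).continuousOn.mul ((hχ.cont.mono hsub).neg.add
        (continuousOn_const.mul ((adm_cont hχ).mono hsub)))
    · filter_upwards [ae_restrict_mem measurableSet_Ioi] with r hr
      have hr1 : (1 : ℝ) < r := hr
      have hr0 : (0 : ℝ) < r := by linarith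
      have hsr : 1 ≤ √r := Real.one_le_sqrt.2 hr1.le
      have h1 := (hM r hr0).1
      have h2 := (hK r hr0).1
      have h3 := (hK r hr0).2.2.1
      have h4 : ‖χ'' r‖ ≤ √r * ‖χ'' r‖ := le_mul_of_one_le_left (norm_nonneg _) hsr
      have hD := DD_pos r
      have hD1 := DD_le_one r
      rw [norm_mul]
      have h5 : ‖-χ'' r + s ^ 2 * χ r‖ ≤ K * DD r + ‖s‖ ^ 2 * (K * DD r) := by
        refine (norm_add_le _ _).trans ?_
        rw [norm_neg, norm_mul, norm_pow]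
        gcongr
        exact h4.trans h3
      have h6 : ‖ex s r‖ ≤ M := h1.trans (mul_le_of_le_one_right hM0 hD1)
      calc ‖ex s r‖ * ‖-χ'' r + s ^ 2 * χ r‖ ≤ M * (K * DD r + ‖s‖ ^ 2 * (K * DD r)) := by gcongr
        _ = M * (K + ‖s‖ ^ 2 * K) * DD r := by ring
  refine ⟨hint, ?_⟩
  have hF : ∀ x ∈ Ici (1 : ℝ), HasDerivAt (fun r => -(ex s r * χ' r) - s * (ex s r * χ r))
      (ex s x * (-χ'' x + s ^ 2 * χ x)) x := by
    intro x hx
    have hx0 : (0 : ℝ) < x := lt_of_lt_of_le one_pos hx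
    have h1 := ((ex_deriv s x).mul (hχ.d2 x hx0)).neg
    have h2 := ((ex_deriv s x).mul (hχ.d1 x hx0)).const_mul s
    have h3 := h1.sub h2
    refine HasDerivAt.congr_deriv (f := fun r => -(ex s r * χ' r) - s * (ex s r * χ r)) h3 ?_
    ring
  have hlim : Tendsto (fun r => -(ex s r * χ' r) - s * (ex s r * χ r)) atTop (𝓝 0) := by
    have t1 : Tendsto (ex s) atTop (𝓝 0) := tendsto_atTop_of_DD fun r hr => (hM r hr).1
    have t2 : Tendsto χ atTop (𝓝 0) := tendsto_atTop_of_DD fun r hr => (hK r hr).1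
    have t3 : Tendsto χ' atTop (𝓝 0) := tendsto_atTop_of_DD fun r hr => (hK r hr).2.1
    have := (t1.mul t3).neg.sub ((t1.mul t2).const_mul s)
    simpa using this
  have := integral_Ioi_of_hasDerivAt_of_tendsto' hF hint hlim
  rw [this, ex_one]
  ring

lemma inner_int (s : ℂ) (u u' : ℝ → ℂ) (C : ℝ)
    (hc : ContinuousOn u (Ioc 0 1)) (hc' : ContinuousOn u' (Ioc 0 1))
    (hd : ∀ r, 0 < r → r < 1 → HasDerivAt u (u' r) r ∧
        HasDerivAt u' (((3 / (4 * r ^ 2) - 24 / (7 - 3 * r ^ 2) : ℝ) + s ^ 2) * u r) r)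
    (hb : ∀ r, 0 < r → r ≤ 1 → ‖u r‖ ≤ C * r ^ (3 / 2 : ℝ) ∧ ‖u' r‖ ≤ C * r ^ (1 / 2 : ℝ))
    {χ χ' χ'' : ℝ → ℂ} (hχ : Adm χ χ' χ'') :
    IntegrableOn (fun r : ℝ => u r * (-χ'' r +
      ((3 / (4 * r ^ 2) - 24 / (7 - 3 * r ^ 2) : ℝ) + s ^ 2) * χ r)) (Ioc 0 1) ∧
    ∫ r in Ioc (0 : ℝ) 1, u r * (-χ'' r +
      ((3 / (4 * r ^ 2) - 24 / (7 - 3 * r ^ 2) : ℝ) + s ^ 2) * χ r)
      = -(u 1 * χ' 1) + u' 1 * χ 1 := by
  obtain ⟨K, hK0, hK⟩ := adm_bounds hχ
  have hC0 : 0 ≤ C := by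
    have h1 := (hb 1 one_pos le_rfl).1
    rw [Real.one_rpow, mul_one] at h1
    exact (norm_nonneg _).trans h1
  have hb' : ∀ r, 0 < r → r ≤ 1 → ‖u r‖ ≤ C * (r * √r) ∧ ‖u' r‖ ≤ C * √r := by
    intro r hr hr1
    have e1 : r ^ (3 / 2 : ℝ) = r * √r := by
      rw [Real.sqrt_eq_rpow, ← Real.rpow_one_add' hr.le (by norm_num)]; norm_num
    have e2 : r ^ (1 / 2 : ℝ) = √r := by rw [Real.sqrt_eq_rpow]
    have := hb r hr hr1
    rwa [e1, e2] at this
  have hsub : Ioc (0 : ℝ) 1 ⊆ Ioi 0 := Ioc_subset_Ioi_self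
  have hint : IntegrableOn (fun r : ℝ => u r * (-χ'' r +
      ((3 / (4 * r ^ 2) - 24 / (7 - 3 * r ^ 2) : ℝ) + s ^ 2) * χ r)) (Ioc 0 1) := by
    have hq : ContinuousOn (fun r : ℝ => (3 / (4 * r ^ 2) - 24 / (7 - 3 * r ^ 2) : ℝ))
        (Ioc 0 1) := by
      refine ContinuousOn.sub (continuousOn_const.div (by fun_prop) ?_)
        (continuousOn_const.div (by fun_prop) ?_)
      · intro r hr
        have := hr.1
        positivity
      · intro r hr
        have h1 := hr.1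
        have h2 := hr.2
        have : r ^ 2 ≤ 1 := by nlinarith
        linarith
    have hcont : ContinuousOn (fun r : ℝ => u r * (-χ'' r +
        ((3 / (4 * r ^ 2) - 24 / (7 - 3 * r ^ 2) : ℝ) + s ^ 2) * χ r)) (Ioc 0 1) := by
      refine hc.mul ((hχ.cont.mono hsub).neg.add (ContinuousOn.mul ?_ ((adm_cont hχ).mono hsub)))
      exact (Complex.continuous_ofReal.comp_continuousOn hq).add continuousOn_const
    refine Integrable.mono' (g := fun _ => C * K + (7 + ‖s‖ ^ 2) * (C * K))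
      (integrableOn_const (by simp)) (hcont.aestronglyMeasurable measurableSet_Ioc) ?_
    · filter_upwards [ae_restrict_mem measurableSet_Ioc] with r hr
      obtain ⟨hr0, hr1⟩ := hr
      have h1 := (hb' r hr0 hr1).1
      have h3 := (hK r hr0).2.2.1
      have h4 := (hK r hr0).2.2.2.1
      have hD := DD_le_one r
      have hs : 0 < √r := Real.sqrt_pos.2 hr0
      have hss : √r * √r = r := Real.mul_self_sqrt hr0.le
      have hr2 : r ^ 2 ≤ 1 := by nlinarith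
      have hqb : ‖((3 / (4 * r ^ 2) - 24 / (7 - 3 * r ^ 2) : ℝ) : ℂ) + s ^ 2‖
          ≤ (7 + ‖s‖ ^ 2) / r ^ 2 := by
        refine (norm_add_le _ _).trans ?_
        rw [Complex.norm_real, norm_pow, Real.norm_eq_abs]
        have h5 : |3 / (4 * r ^ 2) - 24 / (7 - 3 * r ^ 2)| ≤ 7 / r ^ 2 := by
          have h6 : 24 / (7 - 3 * r ^ 2) ≤ 6 := by
            rw [div_le_iff₀ (by linarith)]; linarith
          have h7 : 0 ≤ 24 / (7 - 3 * r ^ 2) := div_nonneg (by norm_num) (by linarith)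
          have h8 : 3 / (4 * r ^ 2) = (3 / 4) * (1 / r ^ 2) := by field_simp
          have h9 : 1 ≤ 1 / r ^ 2 := by rw [le_div_iff₀ (by positivity)]; linarith
          have h10 : 7 / r ^ 2 = 7 * (1 / r ^ 2) := by field_simp
          rw [abs_le, h8, h10]
          constructor
          · linarith
          · linarith
        have h11 : ‖s‖ ^ 2 ≤ ‖s‖ ^ 2 / r ^ 2 := by
          rw [le_div_iff₀ (by positivity)]
          exact mul_le_of_le_one_right (by positivity) hr2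
        rw [add_div]
        linarith
      rw [norm_mul]
      have h5 : ‖-χ'' r + (((3 / (4 * r ^ 2) - 24 / (7 - 3 * r ^ 2) : ℝ) : ℂ) + s ^ 2) * χ r‖
          ≤ ‖χ'' r‖ + (7 + ‖s‖ ^ 2) / r ^ 2 * (K * (r * √r)) := by
        refine (norm_add_le _ _).trans ?_
        rw [norm_neg, norm_mul]
        gcongr
      calc ‖u r‖ * ‖-χ'' r + (((3 / (4 * r ^ 2) - 24 / (7 - 3 * r ^ 2) : ℝ) : ℂ) + s ^ 2) * χ r‖
          ≤ C * (r * √r) * (‖χ'' r‖ + (7 + ‖s‖ ^ 2) / r ^ 2 * (K * (r * √r))) := by gcongr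
        _ = C * r * (√r * ‖χ'' r‖) + (7 + ‖s‖ ^ 2) * (C * K) * ((√r * √r) * (r * r / r ^ 2)) := by
            ring
        _ = C * r * (√r * ‖χ'' r‖) + (7 + ‖s‖ ^ 2) * (C * K) * r := by
            rw [hss]; field_simp
        _ ≤ C * 1 * (K * 1) + (7 + ‖s‖ ^ 2) * (C * K) * 1 := by
            have h12 : √r * ‖χ'' r‖ ≤ K * 1 :=
              h3.trans (mul_le_mul_of_nonneg_left hD hK0)
            have h13 : C * r ≤ C * 1 := mul_le_mul_of_nonneg_left hr1 hC0
            have h14 : C * r * (√r * ‖χ'' r‖) ≤ C * 1 * (K * 1) :=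
              mul_le_mul h13 h12 (by positivity) (by positivity)
            have h15 : (7 + ‖s‖ ^ 2) * (C * K) * r ≤ (7 + ‖s‖ ^ 2) * (C * K) * 1 :=
              mul_le_mul_of_nonneg_left hr1 (by positivity)
            linarith
        _ = C * K + (7 + ‖s‖ ^ 2) * (C * K) := by ring
  refine ⟨hint, ?_⟩
  have hF : ∀ x ∈ Ioo (0 : ℝ) 1, HasDerivAt (fun r => -(u r * χ' r) + u' r * χ r)
      (u x * (-χ'' x + ((3 / (4 * x ^ 2) - 24 / (7 - 3 * x ^ 2) : ℝ) + s ^ 2) * χ x)) x := by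
    intro x hx
    obtain ⟨hx0, hx1⟩ := hx
    obtain ⟨d1, d2⟩ := hd x hx0 hx1
    have h1 := (d1.mul (hχ.d2 x hx0)).neg
    have h2 := d2.mul (hχ.d1 x hx0)
    have h3 := h1.add h2
    refine HasDerivAt.congr_deriv (f := fun r => -(u r * χ' r) + u' r * χ r) h3 ?_
    ring
  have hlim0 : Tendsto (fun r => -(u r * χ' r) + u' r * χ r) (𝓝[>] 0) (𝓝 0) := by
    refine squeeze_zero_norm' (a := fun r => 2 * (C * K) * r ^ 2) ?_ ?_
    · filter_upwards [Ioo_mem_nhdsGT (zero_lt_one (α := ℝ))] with r hr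
      obtain ⟨hr0, hr1⟩ := hr
      obtain ⟨h1, h2⟩ := hb' r hr0 hr1.le
      have h4 := (hK r hr0).2.2.2.1
      have h5 := (hK r hr0).2.2.2.2.1
      have hss : √r * √r = r := Real.mul_self_sqrt hr0.le
      refine (norm_add_le _ _).trans ?_
      rw [norm_neg, norm_mul, norm_mul]
      calc ‖u r‖ * ‖χ' r‖ + ‖u' r‖ * ‖χ r‖
          ≤ C * (r * √r) * (K * √r) + C * √r * (K * (r * √r)) := by gcongr
        _ = 2 * (C * K) * (r * (√r * √r)) := by ring
        _ = 2 * (C * K) * r ^ 2 := by rw [hss]; ring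
    · have : Tendsto (fun r : ℝ => 2 * (C * K) * r ^ 2) (𝓝 0) (𝓝 (2 * (C * K) * 0 ^ 2)) :=
        (by fun_prop : Continuous fun r : ℝ => 2 * (C * K) * r ^ 2).tendsto 0
      rw [zero_pow two_ne_zero, mul_zero] at this
      exact this.mono_left nhdsWithin_le_nhds
  have hle : 𝓝[<] (1 : ℝ) ≤ 𝓝[Ioc 0 1] (1 : ℝ) := by
    rw [← nhdsWithin_Ioo_eq_nhdsLT (zero_lt_one (α := ℝ))]
    exact nhdsWithin_mono _ Ioo_subset_Ioc_self
  have hmem : (1 : ℝ) ∈ Ioc (0 : ℝ) 1 := ⟨one_pos, le_rfl⟩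
  have hlim1 : Tendsto (fun r => -(u r * χ' r) + u' r * χ r) (𝓝[<] 1)
      (𝓝 (-(u 1 * χ' 1) + u' 1 * χ 1)) := by
    have t1 : Tendsto u (𝓝[<] 1) (𝓝 (u 1)) := (hc 1 hmem).mono_left hle
    have t2 : Tendsto u' (𝓝[<] 1) (𝓝 (u' 1)) := (hc' 1 hmem).mono_left hle
    have t3 : Tendsto χ (𝓝[<] 1) (𝓝 (χ 1)) :=
      (hχ.d1 1 one_pos).continuousAt.tendsto.mono_left nhdsWithin_le_nhds
    have t4 : Tendsto χ' (𝓝[<] 1) (𝓝 (χ' 1)) :=
      (hχ.d2 1 one_pos).continuousAt.tendsto.mono_left nhdsWithin_le_nhds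
    exact (t1.mul t4).neg.add (t2.mul t3)
  have h3 := intervalIntegral.integral_eq_sub_of_hasDerivAt_of_tendsto one_pos hF
    ((intervalIntegrable_iff_integrableOn_Ioc_of_le zero_le_one).2 hint) hlim0 hlim1
  rw [intervalIntegral.integral_of_le zero_le_one, sub_zero] at h3
  exact h3

/-- (R4b) -/
theorem weak_main (s : ℂ) (hs : 0 < s.re) (w h F : E) (hwh : InForm 1 w h)
    (hF : ∀ᵐ r ∂μ₀, r < 1 → F r = 0)
    (heq : ∀ η η' : E, InForm 1 η η' →
          (∫ r in Ioi (0 : ℝ), h r * η' r) + (∫ r in Ioi (0 : ℝ), s ^ 2 * w r * η r)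
            = ∫ r in Ioi (0 : ℝ), F r * η r)
    (u u' : ℝ → ℂ) (f : ℂ) (C : ℝ) (hu1 : u 1 = 1) (hu1' : u' 1 = f - s)
    (hc : ContinuousOn u (Ioc 0 1)) (hc' : ContinuousOn u' (Ioc 0 1))
    (hd : ∀ r, 0 < r → r < 1 → HasDerivAt u (u' r) r ∧
        HasDerivAt u' (((3 / (4 * r ^ 2) - 24 / (7 - 3 * r ^ 2) : ℝ) + s ^ 2) * u r) r)
    (hb : ∀ r, 0 < r → r ≤ 1 → ‖u r‖ ≤ C * r ^ (3 / 2 : ℝ) ∧ ‖u' r‖ ≤ C * r ^ (1 / 2 : ℝ))
    (x : ℂ) (hx : x * f = ∫ r in Ioi (1 : ℝ), F r * Complex.exp (-s * (r - 1)))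
    (χ χ' χ'' : ℝ → ℂ) (hχ : Adm χ χ' χ'') :
    ∫ r in Ioi (0 : ℝ), (if r < 1 then x * u r else x * Complex.exp (-s * (r - 1)) + w r) *
        (-χ'' r + ((3 / (4 * r ^ 2) + v0fun r : ℝ) + s ^ 2) * χ r)
      = ∫ r in Ioi (0 : ℝ), F r * χ r := by
  obtain ⟨K, hK0, hK⟩ := adm_bounds hχ
  obtain ⟨M, hM0, hM⟩ := ex_bounds s hs
  have hm0 : AEStronglyMeasurable χ μ₀ := (adm_cont hχ).aestronglyMeasurable measurableSet_Ioi
  have hm1 : AEStronglyMeasurable χ' μ₀ := (adm_cont' hχ).aestronglyMeasurable measurableSet_Ioi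
  have hme : AEStronglyMeasurable (ex s) μ₀ := (ex_cont s).aestronglyMeasurable
  have hL0 : MemLp χ 2 μ₀ := memLp_of_DD hm0 fun r hr => (hK r hr).1
  have hL1 : MemLp χ' 2 μ₀ := memLp_of_DD hm1 fun r hr => (hK r hr).2.1
  have hLe : MemLp (ex s) 2 μ₀ := memLp_of_DD hme fun r hr => (hM r hr).1
  -- vanishing on `(0,1)`
  have hne1 : ∀ᵐ r ∂μ₀, r ≠ 1 := by
    refine ae_restrict_of_ae ?_
    have : volume ({1} : Set ℝ) = 0 := by simp
    exact compl_mem_ae_iff.2 this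
  have hh0 : ∀ᵐ r ∂μ₀, r ≤ 1 → h r = 0 := hwh.2
  have hF0 : ∀ᵐ r ∂μ₀, r ≤ 1 → F r = 0 := by
    filter_upwards [hF, hne1] with r h1 h2 h3
    exact h1 (lt_of_le_of_ne h3 h2)
  have hw0 : ∀ᵐ r ∂μ₀, r ≤ 1 → w r = 0 := by
    filter_upwards [hwh.1] with r h1 h2
    rw [h1]
    have : ∫ t in Ioc 0 r, h t = ∫ t in Ioc 0 r, (0 : ℂ) := by
      apply setIntegral_congr_ae measurableSet_Ioc
      rw [ae_restrict_iff' measurableSet_Ioi] at hh0
      filter_upwards [hh0] with t ht h3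
      exact ht h3.1 (h3.2.trans h2)
    rw [this]; simp
  -- the test pair
  set ζ : ℝ → ℂ := fun r => χ r - χ 1 * ex s r with hζ
  set ζ' : ℝ → ℂ := fun r => χ' r + s * χ 1 * ex s r with hζ'
  have hζL : MemLp ζ 2 μ₀ := hL0.sub (hLe.const_mul _)
  have hζL' : MemLp ζ' 2 μ₀ := hL1.add (hLe.const_mul _)
  set η : ℝ → ℂ := (Ioi (1 : ℝ)).indicator ζ with hη
  set η' : ℝ → ℂ := (Ioi (1 : ℝ)).indicator ζ' with hη'
  have hηL : MemLp η 2 μ₀ := hζL.indicator measurableSet_Ioi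
  have hηL' : MemLp η' 2 μ₀ := hζL'.indicator measurableSet_Ioi
  have hζd : ∀ r, 0 < r → HasDerivAt ζ (ζ' r) r := by
    intro r hr
    have h1 := (hχ.d1 r hr).sub ((ex_deriv s r).const_mul (χ 1))
    refine HasDerivAt.congr_deriv (f := ζ) h1 ?_
    simp only [hζ']; ring
  have hζc' : ContinuousOn ζ' (Ioi 0) :=
    (adm_cont' hχ).add (continuousOn_const.mul (ex_cont s).continuousOn)
  have hform : InForm 1 (hηL.toLp η) (hηL'.toLp η') := by
    constructor
    · filter_upwards [hηL.coeFn_toLp, ae_restrict_mem measurableSet_Ioi] with r h1 h2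
      have h2' : (0 : ℝ) < r := h2
      rw [h1, toLp_Ioc hηL', setIntegral_indicator measurableSet_Ioi]
      by_cases hr1 : r ≤ 1
      · have : Ioc 0 r ∩ Ioi 1 = ∅ := by
          ext t; simp only [mem_inter_iff, mem_Ioc, mem_Ioi, mem_empty_iff_false, iff_false]
          rintro ⟨⟨_, h3⟩, h4⟩; linarith
        rw [this, hη, indicator_of_notMem (show r ∉ Ioi (1 : ℝ) from not_lt.2 hr1)]
        simp
      · have hr1' : 1 < r := not_le.1 hr1
        have : Ioc 0 r ∩ Ioi 1 = Ioc 1 r := by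
          ext t; simp only [mem_inter_iff, mem_Ioc, mem_Ioi]
          constructor
          · rintro ⟨⟨_, h3⟩, h4⟩; exact ⟨h4, h3⟩
          · rintro ⟨h3, h4⟩; exact ⟨⟨by linarith, h4⟩, h3⟩
        rw [this, hη, indicator_of_mem (show r ∈ Ioi (1 : ℝ) from hr1'),
          ← intervalIntegral.integral_of_le hr1'.le,
          intervalIntegral.integral_eq_sub_of_hasDerivAt (f := ζ) (f' := ζ')]
        · simp only [hζ, ex_one, mul_one, sub_self, sub_zero]
        · intro y hy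
          rw [uIcc_of_le hr1'.le] at hy
          exact hζd y (by linarith [hy.1])
        · apply ContinuousOn.intervalIntegrable
          rw [uIcc_of_le hr1'.le]
          exact hζc'.mono (fun y hy => lt_of_lt_of_le one_pos hy.1)
    · filter_upwards [hηL'.coeFn_toLp] with r h1 h2
      rw [h1, hη', indicator_of_notMem (show r ∉ Ioi (1 : ℝ) from not_lt.2 h2)]
  have key := heq _ _ hform
  -- rewrite the three integrals
  have i1 : Integrable (fun r => h r * χ' r) μ₀ := MemLp.integrable_mul (Lp.memLp h) hL1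
  have i2 : Integrable (fun r => h r * ex s r) μ₀ := MemLp.integrable_mul (Lp.memLp h) hLe
  have i3 : Integrable (fun r => w r * χ r) μ₀ := MemLp.integrable_mul (Lp.memLp w) hL0
  have i4 : Integrable (fun r => w r * ex s r) μ₀ := MemLp.integrable_mul (Lp.memLp w) hLe
  have i5 : Integrable (fun r => F r * χ r) μ₀ := MemLp.integrable_mul (Lp.memLp F) hL0
  have i6 : Integrable (fun r => F r * ex s r) μ₀ := MemLp.integrable_mul (Lp.memLp F) hLe
  have e1 : ∫ r in Ioi (0 : ℝ), h r * (hηL'.toLp η') r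
      = (∫ r in Ioi (0 : ℝ), h r * χ' r) + s * χ 1 * ∫ r in Ioi (0 : ℝ), h r * ex s r := by
    rw [← integral_const_mul, ← integral_add i1 (i2.const_mul _)]
    apply integral_congr_ae
    filter_upwards [hηL'.coeFn_toLp, hh0] with r h1 h2
    rw [h1]
    by_cases hr1 : r ≤ 1
    · rw [h2 hr1]; ring
    · rw [hη', indicator_of_mem (show r ∈ Ioi (1 : ℝ) from not_le.1 hr1)]
      simp only [hζ']; ring
  have e2 : ∫ r in Ioi (0 : ℝ), s ^ 2 * w r * (hηL.toLp η) r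
      = s ^ 2 * (∫ r in Ioi (0 : ℝ), w r * χ r)
        - s ^ 2 * χ 1 * ∫ r in Ioi (0 : ℝ), w r * ex s r := by
    rw [← integral_const_mul, ← integral_const_mul,
      ← integral_sub (i3.const_mul _) (i4.const_mul _)]
    apply integral_congr_ae
    filter_upwards [hηL.coeFn_toLp, hw0] with r h1 h2
    rw [h1]
    by_cases hr1 : r ≤ 1
    · rw [h2 hr1]; ring
    · rw [hη, indicator_of_mem (show r ∈ Ioi (1 : ℝ) from not_le.1 hr1)]
      simp only [hζ]; ring
  have e3 : ∫ r in Ioi (0 : ℝ), F r * (hηL.toLp η) r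
      = (∫ r in Ioi (0 : ℝ), F r * χ r) - χ 1 * ∫ r in Ioi (0 : ℝ), F r * ex s r := by
    rw [← integral_const_mul, ← integral_sub i5 (i6.const_mul _)]
    apply integral_congr_ae
    filter_upwards [hηL.coeFn_toLp, hF0] with r h1 h2
    rw [h1]
    by_cases hr1 : r ≤ 1
    · rw [h2 hr1]; ring
    · rw [hη, indicator_of_mem (show r ∈ Ioi (1 : ℝ) from not_le.1 hr1)]
      simp only [hζ]; ring
  have e4 : ∫ r in Ioi (0 : ℝ), F r * ex s r = x * f := by
    rw [hx]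
    have hsub : Ioi (0 : ℝ) = Ioc 0 1 ∪ Ioi 1 := (Ioc_union_Ioi_eq_Ioi zero_le_one).symm
    have hz : ∫ r in Ioc (0 : ℝ) 1, F r * ex s r = 0 := by
      have : ∫ r in Ioc (0 : ℝ) 1, F r * ex s r = ∫ r in Ioc (0 : ℝ) 1, (0 : ℂ) := by
        apply setIntegral_congr_ae measurableSet_Ioc
        rw [ae_restrict_iff' measurableSet_Ioi] at hF0
        filter_upwards [hF0] with t ht h3
        rw [ht h3.1 h3.2, zero_mul]
      rw [this]; simp
    have i6' : IntegrableOn (fun r => F r * ex s r) (Ioi 0) := i6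
    rw [hsub, setIntegral_union Ioc_disjoint_Ioi_same measurableSet_Ioi
      (i6'.mono_set Ioc_subset_Ioi_self) (i6'.mono_set (Ioi_subset_Ioi zero_le_one)), hz, zero_add]
    rfl
  have e5 := ex_ibp s hs w h hwh.1
  have e6 := adm_ibp hχ w h hwh.1
  have i7 := adm_int2 hχ w h hwh.1
  rw [e1, e2, e3, e4] at key
  have e7 : ∫ r in Ioi (0 : ℝ), w r * (-χ'' r + s ^ 2 * χ r)
      = (∫ r in Ioi (0 : ℝ), F r * χ r) - χ 1 * (x * f) := by
    have : ∫ r in Ioi (0 : ℝ), w r * (-χ'' r + s ^ 2 * χ r)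
        = s ^ 2 * (∫ r in Ioi (0 : ℝ), w r * χ r) - ∫ r in Ioi (0 : ℝ), w r * χ'' r := by
      rw [← integral_const_mul, ← integral_sub (i3.const_mul _) i7]
      congr 1
      ext r; ring
    rw [this, e6]
    rw [← e5] at key
    linear_combination key
  -- the whole integral
  obtain ⟨j1, j2⟩ := inner_int s u u' C hc hc' hd hb hχ
  obtain ⟨j3, j4⟩ := outer_int s hs hχ
  have j5 : Integrable (fun r => w r * (-χ'' r + s ^ 2 * χ r)) μ₀ := by
    refine ((i3.const_mul (s ^ 2)).sub i7).congr ?_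
    filter_upwards with r
    simp only [Pi.sub_apply]
    ring
  have e8 : ∫ r in Ioi (0 : ℝ), (if r < 1 then x * u r else x * Complex.exp (-s * (r - 1)) + w r) *
        (-χ'' r + ((3 / (4 * r ^ 2) + v0fun r : ℝ) + s ^ 2) * χ r)
      = ∫ r in Ioi (0 : ℝ), ((Ioc (0 : ℝ) 1).indicator (fun r : ℝ => x * (u r * (-χ'' r +
            ((3 / (4 * r ^ 2) - 24 / (7 - 3 * r ^ 2) : ℝ) + s ^ 2) * χ r))) r
          + (Ioi (1 : ℝ)).indicator (fun r : ℝ => x * (ex s r * (-χ'' r + s ^ 2 * χ r))) r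
          + w r * (-χ'' r + s ^ 2 * χ r)) := by
    apply integral_congr_ae
    filter_upwards [hne1, hw0, ae_restrict_mem measurableSet_Ioi] with r h1 h2 h3
    have h3' : (0 : ℝ) < r := h3
    by_cases hr1 : r < 1
    · have hv : v0fun r = -24 / (7 - 3 * r ^ 2) := by
        rw [v0fun, if_pos (by rw [abs_of_pos h3']; exact hr1)]
      rw [if_pos hr1, indicator_of_mem (show r ∈ Ioc (0 : ℝ) 1 from ⟨h3', hr1.le⟩),
        indicator_of_notMem (show r ∉ Ioi (1 : ℝ) from not_lt.2 hr1.le), h2 hr1.le, hv]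
      rw [show (3 / (4 * r ^ 2) + -24 / (7 - 3 * r ^ 2) : ℝ)
        = 3 / (4 * r ^ 2) - 24 / (7 - 3 * r ^ 2) by ring]
      ring
    · have hr1' : 1 < r := lt_of_le_of_ne (not_lt.1 hr1) (Ne.symm h1)
      have hv : v0fun r = -3 / (4 * r ^ 2) := by
        rw [v0fun, if_neg (by rw [abs_of_pos h3']; exact hr1)]
      rw [if_neg hr1, indicator_of_notMem (show r ∉ Ioc (0 : ℝ) 1 from fun hh => hh.2.not_gt hr1'),
        indicator_of_mem (show r ∈ Ioi (1 : ℝ) from hr1'), hv]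
      rw [show (3 / (4 * r ^ 2) + -3 / (4 * r ^ 2) : ℝ) = 0 by ring]
      simp only [ex, Complex.ofReal_zero, zero_add]
      ring
  have k1 : Integrable ((Ioc (0 : ℝ) 1).indicator (fun r : ℝ => x * (u r * (-χ'' r +
            ((3 / (4 * r ^ 2) - 24 / (7 - 3 * r ^ 2) : ℝ) + s ^ 2) * χ r)))) μ₀ := by
    rw [integrable_indicator_iff measurableSet_Ioc, IntegrableOn,
      Measure.restrict_restrict measurableSet_Ioc, inter_eq_left.2 Ioc_subset_Ioi_self]
    exact j1.const_mul x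
  have k2 : Integrable ((Ioi (1 : ℝ)).indicator
      (fun r : ℝ => x * (ex s r * (-χ'' r + s ^ 2 * χ r)))) μ₀ := by
    rw [integrable_indicator_iff measurableSet_Ioi, IntegrableOn,
      Measure.restrict_restrict measurableSet_Ioi,
      inter_eq_left.2 (Ioi_subset_Ioi zero_le_one)]
    exact j3.const_mul x
  have e9 := integral_add (μ := μ₀) (k1.add k2) j5
  have e10 := integral_add (μ := μ₀) k1 k2
  simp only [Pi.add_apply] at e9
  rw [e8, e9, e10, e7,
    integral_indicator measurableSet_Ioc, integral_indicator measurableSet_Ioi,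
    Measure.restrict_restrict measurableSet_Ioc, inter_eq_left.2 Ioc_subset_Ioi_self,
    Measure.restrict_restrict measurableSet_Ioi,
    inter_eq_left.2 (Ioi_subset_Ioi zero_le_one), integral_const_mul, integral_const_mul,
    j2, j4, hu1, hu1']
  ring

end Pool.Agent.Helper70.CLTd
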